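import Mathlib
import Pool.Agent.P.MP_b1a016_al.ClassC

namespace Pool.Agent.Results.MP_b1a016_al.Classification

open Pool.Agent.P.MP_b1a016_al

/-- Classification of the non-abelian pro-p Cappitt groups.  `G` is pro-p: a compact Hausdorff
totally disconnected group all of whose quotients by open normal subgroups are p-groups.
Equivalent are: (1) the Cappitt condition of the problem; (2) the same without the closure;
(3) the condition for the abstract group; (4) either the commutator subgroup is cyclic and equal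
to the subgroup of `p ^ j`-th powers for some `p ^ j > 2` (and the exponent divides `p ^ (2 j)`),
or `p = 2` and `G` is the product of the quaternion group with a group of exponent at most 2
(and the exponent divides 4).  In particular such a group has finite exponent. -/
theorem result (p : ℕ) (hp : p.Prime) (G : Type*) [Group G] [TopologicalSpace G]
    [IsTopologicalGroup G] [CompactSpace G] [T2Space G] [TotallyDisconnectedSpace G]
    (hpro : ∀ N : Subgroup G, ∀ [N.Normal], IsOpen (N : Set G) → IsPGroup p (G ⧸ N))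
    (hnonab : ∃ a b : G, a * b ≠ b * a) :
    List.TFAE
      [(sSup {L : Subgroup G | IsClosed (L : Set G) ∧ ¬ L.Normal}).topologicalClosure ≠ ⊤,
       sSup {L : Subgroup G | IsClosed (L : Set G) ∧ ¬ L.Normal} ≠ ⊤,
       sSup {L : Subgroup G | ¬ L.Normal} ≠ ⊤,
       (∃ (j : ℕ) (x : G), 2 < p ^ j ∧ commutator G = Subgroup.zpowers (x ^ p ^ j) ∧
           (∀ g : G, g ^ p ^ j ∈ commutator G) ∧ ∀ g : G, g ^ p ^ (2 * j) = 1) ∨
         (p = 2 ∧ (∀ g : G, g ^ 4 = 1) ∧ ∃ E : Subgroup G, (∀ e ∈ E, e ^ 2 = 1) ∧
           Nonempty (G ≃* QuaternionGroup 2 × E))] := by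
  have hle : sSup {L : Subgroup G | IsClosed (L : Set G) ∧ ¬ L.Normal} ≤
      sSup {L : Subgroup G | ¬ L.Normal} := sSup_le_sSup fun L hL => hL.2
  tfae_have 1 → 2 := fun h h' =>
    h (top_le_iff.1 (h' ▸ Subgroup.le_topologicalClosure _))
  tfae_have 3 → 2 := fun h h' => h (top_le_iff.1 (h' ▸ hle))
  tfae_have 2 → 4 := by
    intro h
    rcases classify hp hpro hnonab h with h1 | ⟨h1, E, hE, ⟨φ⟩⟩
    · exact Or.inl h1
    · refine Or.inr ⟨h1, fun g => φ.injective ?_, E, hE, ⟨φ⟩⟩
      have hq : ∀ q : QuaternionGroup 2, q ^ 4 = 1 := by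
        rintro (i | i) <;> revert i <;> decide
      rw [map_pow, map_one]
      refine Prod.ext (hq _) (Subtype.ext ?_)
      change ((φ g).2 : G) ^ (2 * 2) = 1
      rw [pow_mul, hE _ (φ g).2.2, one_pow]
  tfae_have 4 → 1 := by
    intro h h'
    refine classify_converse hp hnonab (h.imp id fun h1 => ⟨h1.1, h1.2.2⟩) (top_le_iff.1 ?_)
    exact h' ▸ Subgroup.topologicalClosure_mono hle
  tfae_have 4 → 3 := by
    intro h h'
    refine classify_converse hp hnonab (h.imp id fun h1 => ⟨h1.1, h1.2.2⟩) (top_le_iff.1 ?_)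
    exact h' ▸ Subgroup.le_topologicalClosure _
  tfae_finish

end Pool.Agent.Results.MP_b1a016_al.Classification
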